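import Pool.Agent.R684.FP.Main

/-!
# Graph products of arbitrary groups: the kernel of the retraction which kills an independent set
-/

set_option autoImplicit false
set_option linter.unusedSectionVars false

open scoped Classical

noncomputable section

namespace Pool.Agent.W2helper32.GQ

open Pool.Agent.Y110.FJ (GrP commRel)

section base

variable {V : Type} {Λ : SimpleGraph V} {A : V → Type} [∀ v, Group (A v)]

variable (Λ A) in
/-- the inclusion of a vertex group -/
def vx (v : V) : A v →* GrP Λ A := GrP.of Λ A v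

theorem vx_comm {v w : V} (h : Λ.Adj v w) (a : A v) (b : A w) :
    vx Λ A v a * vx Λ A w b = vx Λ A w b * vx Λ A v a := by
  have h1 : (QuotientGroup.mk' (Subgroup.normalClosure (commRel Λ A)))
      (Monoid.CoprodI.of a * Monoid.CoprodI.of b * (Monoid.CoprodI.of a)⁻¹ *
        (Monoid.CoprodI.of b)⁻¹) = 1 := by
    rw [QuotientGroup.mk'_apply, QuotientGroup.eq_one_iff]
    exact Subgroup.subset_normalClosure ⟨v, w, a, b, h, rfl⟩
  rw [map_mul, map_mul, map_mul, map_inv, map_inv, mul_inv_eq_one, mul_inv_eq_iff_eq_mul] at h1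
  exact h1

variable {H : Type} [Group H]

/-- homomorphisms from the graph product -/
def lift (f : ∀ v, A v →* H)
    (h : ∀ v w, Λ.Adj v w → ∀ (a : A v) (b : A w), f v a * f w b = f w b * f v a) :
    GrP Λ A →* H :=
  QuotientGroup.lift _ (Monoid.CoprodI.lift f) (by
    have h1 : Subgroup.normalClosure (commRel Λ A) ≤ (Monoid.CoprodI.lift f).ker := by
      refine Subgroup.normalClosure_le_normal ?_
      rintro _ ⟨v, w, a, b, hvw, rfl⟩
      rw [SetLike.mem_coe, MonoidHom.mem_ker]
      simp only [map_mul, map_inv, Monoid.CoprodI.lift_of]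
      rw [mul_inv_eq_one, mul_inv_eq_iff_eq_mul, h v w hvw]
    exact fun x hx => h1 hx)

theorem lift_vx (f : ∀ v, A v →* H)
    (h : ∀ v w, Λ.Adj v w → ∀ (a : A v) (b : A w), f v a * f w b = f w b * f v a) (v : V)
    (a : A v) : lift f h (vx Λ A v a) = f v a := by
  change QuotientGroup.lift _ (Monoid.CoprodI.lift f) _ (QuotientGroup.mk (Monoid.CoprodI.of a)) = _
  rw [QuotientGroup.lift_mk, Monoid.CoprodI.lift_of]

theorem hom_ext {f g : GrP Λ A →* H} (h : ∀ v a, f (vx Λ A v a) = g (vx Λ A v a)) : f = g := by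
  apply QuotientGroup.monoidHom_ext
  apply Monoid.CoprodI.ext_hom
  intro v
  ext a
  exact h v a

theorem le_of_gen {K : Subgroup (GrP Λ A)} (h : ∀ v a, vx Λ A v a ∈ K) (y : GrP Λ A) : y ∈ K := by
  obtain ⟨w, rfl⟩ := QuotientGroup.mk_surjective y
  have h1 : w ∈ K.comap (QuotientGroup.mk' (Subgroup.normalClosure (commRel Λ A))) := by
    induction w using Monoid.CoprodI.induction_on with
    | one => exact one_mem _
    | of v a => exact h v a
    | mul x y hx hy => exact mul_mem hx hy
  exact h1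

/-- the retraction to a vertex group -/
def rv (v : V) : GrP Λ A →* A v :=
  lift (fun w => if h : w = v then h ▸ MonoidHom.id (A w) else 1) (by
    intro w w' hww a b
    by_cases h : w = v
    · by_cases h' : w' = v
      · exact absurd (h.trans h'.symm) hww.ne
      · rw [dif_neg h', MonoidHom.one_apply, mul_one, one_mul]
    · rw [dif_neg h, MonoidHom.one_apply, mul_one, one_mul])

theorem rv_self (v : V) (a : A v) : rv v (vx Λ A v a) = a := by
  unfold rv
  rw [lift_vx, dif_pos rfl]
  rfl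

theorem rv_ne {v w : V} (h : w ≠ v) (a : A w) : rv v (vx Λ A w a) = 1 := by
  unfold rv
  rw [lift_vx, dif_neg h]
  rfl

theorem vx_injective (v : V) : Function.Injective (vx Λ A v) := by
  intro a b h
  rw [← rv_self (Λ := Λ) v a, h, rv_self]

end base

/-! ### induced subgraphs -/

section ind

variable {V : Type} (Λ : SimpleGraph V) (A : V → Type) [∀ v, Group (A v)] (S : Set V)

/-- the induced subgraph on the other vertices -/
abbrev Λc : SimpleGraph {v // v ∉ S} := Λ.comap (Subtype.val : {v // v ∉ S} → V)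

/-- the other vertex groups -/
abbrev Ac : {v // v ∉ S} → Type := fun v => A v.1

/-- the graph product of the other vertices -/
abbrev Pt : Type := GrP (Λc Λ S) (Ac A S)

/-- the inclusion of a vertex group -/
abbrev vc (v : {v // v ∉ S}) : A v.1 →* Pt Λ A S := vx (Λc Λ S) (Ac A S) v

/-- the inclusion -/
def sc : Pt Λ A S →* GrP Λ A :=
  lift (fun v => vx Λ A v.1)
    (fun v w h a b => vx_comm (Λ := Λ) (A := A) (v := v.1) (w := w.1) h a b)

theorem sc_vc (v : {v // v ∉ S}) (a : A v.1) : sc Λ A S (vc Λ A S v a) = vx Λ A v.1 a :=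
  lift_vx _ _ _ _

/-- the retraction -/
def rt : GrP Λ A →* Pt Λ A S :=
  lift (fun v => if h : v ∉ S then vc Λ A S ⟨v, h⟩ else 1)
    (fun v w hvw a b => by
      by_cases h : v ∉ S
      · by_cases h' : w ∉ S
        · rw [dif_pos h, dif_pos h']
          exact vx_comm (Λ := Λc Λ S) (A := Ac A S) (v := ⟨v, h⟩) (w := ⟨w, h'⟩) hvw a b
        · rw [dif_neg h', MonoidHom.one_apply, mul_one, one_mul]
      · rw [dif_neg h, MonoidHom.one_apply, mul_one, one_mul])

theorem rt_out {v : V} (h : v ∉ S) (a : A v) : rt Λ A S (vx Λ A v a) = vc Λ A S ⟨v, h⟩ a := by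
  unfold rt
  rw [lift_vx, dif_pos h]

theorem rt_in {v : V} (h : v ∈ S) (a : A v) : rt Λ A S (vx Λ A v a) = 1 := by
  unfold rt
  rw [lift_vx, dif_neg (not_not.mpr h)]
  rfl

theorem rt_sc (y : Pt Λ A S) : rt Λ A S (sc Λ A S y) = y := by
  have h : (rt Λ A S).comp (sc Λ A S) = MonoidHom.id _ := by
    apply hom_ext
    intro v a
    rw [MonoidHom.comp_apply]
    erw [sc_vc]
    rw [rt_out Λ A S v.2]
    rfl
  exact DFunLike.congr_fun h y

theorem sc_injective : Function.Injective (sc Λ A S) := by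
  intro a b h
  rw [← rt_sc Λ A S a, h, rt_sc]

end ind

/-! ### the kernel -/

section ker

variable {V : Type} (Λ : SimpleGraph V) (A : V → Type) [∀ v, Group (A v)] (S : Set V)

/-- the subgroup generated by the vertex groups adjacent to `s` -/
def Ls (s : V) : Subgroup (Pt Λ A S) :=
  Subgroup.closure {y | ∃ w : {v // v ∉ S}, Λ.Adj s w.1 ∧ ∃ a, y = vc Λ A S w a}

/-- the index set -/
abbrev It : Type := Σ s : S, Pt Λ A S ⧸ Ls Λ A S s.1

/-- the free product of copies of the groups of `S` -/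
abbrev Wt : Type := Monoid.CoprodI (fun i : It Λ A S => A i.1.1)

/-- the inclusion of a factor -/
def o1 (s : S) (x : Pt Λ A S ⧸ Ls Λ A S s.1) : A s.1 →* Wt Λ A S :=
  Monoid.CoprodI.of (M := fun i : It Λ A S => A i.1.1) (i := ⟨s, x⟩)

theorem W_ext {H : Type} [Monoid H] {f g : Wt Λ A S →* H}
    (h : ∀ s x b, f (o1 Λ A S s x b) = g (o1 Λ A S s x b)) : f = g := by
  apply Monoid.CoprodI.ext_hom
  rintro ⟨s, x⟩
  ext b
  exact h s x b

/-- permutation of the factors -/
def pa (p : Pt Λ A S) : Wt Λ A S →* Wt Λ A S :=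
  Monoid.CoprodI.lift fun i : It Λ A S => o1 Λ A S i.1 (p • i.2)

theorem pa_of (p : Pt Λ A S) (s : S) (x : Pt Λ A S ⧸ Ls Λ A S s.1) (b : A s.1) :
    pa Λ A S p (o1 Λ A S s x b) = o1 Λ A S s (p • x) b := by
  unfold pa
  exact Monoid.CoprodI.lift_of (M := fun i : It Λ A S => A i.1.1)
    (fi := fun i : It Λ A S => o1 Λ A S i.1 (p • i.2)) (i := ⟨s, x⟩) b

theorem pa_mul (p q : Pt Λ A S) : pa Λ A S (p * q) = (pa Λ A S p).comp (pa Λ A S q) := by
  apply W_ext
  intro s x b
  rw [MonoidHom.comp_apply, pa_of, pa_of, pa_of, mul_smul]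

theorem pa_one : pa Λ A S 1 = MonoidHom.id _ := by
  apply W_ext
  intro s x b
  rw [pa_of, one_smul]
  rfl

/-- the action on the free product -/
def pact : Pt Λ A S →* MulAut (Wt Λ A S) where
  toFun p := MonoidHom.toMulEquiv (pa Λ A S p) (pa Λ A S p⁻¹)
    (by rw [← pa_mul, inv_mul_cancel, pa_one]) (by rw [← pa_mul, mul_inv_cancel, pa_one])
  map_one' := by
    ext w
    change pa Λ A S 1 w = w
    rw [pa_one]
    rfl
  map_mul' p q := by
    ext w
    change pa Λ A S (p * q) w = pa Λ A S p (pa Λ A S q w)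
    rw [pa_mul]
    rfl

theorem pact_of (p : Pt Λ A S) (s : S) (x : Pt Λ A S ⧸ Ls Λ A S s.1) (b : A s.1) :
    pact Λ A S p (o1 Λ A S s x b) = o1 Λ A S s (p • x) b :=
  pa_of Λ A S p s x b

/-- the base points -/
abbrev i0 (s : S) : Pt Λ A S ⧸ Ls Λ A S s.1 := QuotientGroup.mk 1

theorem smul_i0 (p : Pt Λ A S) (s : S) : p • i0 Λ A S s = QuotientGroup.mk p := by
  change ((p * 1 : Pt Λ A S) : Pt Λ A S ⧸ Ls Λ A S s.1) = _
  rw [mul_one]

theorem Ls_fix {p : Pt Λ A S} {s : S} (h : p ∈ Ls Λ A S s.1) : p • i0 Λ A S s = i0 Λ A S s := by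
  rw [smul_i0, QuotientGroup.eq, mul_one]
  exact (Ls Λ A S s.1).inv_mem h

variable {Λ A S}

/-- `S` is independent -/
def Ind (Λ : SimpleGraph V) (S : Set V) : Prop := ∀ s ∈ S, ∀ t ∈ S, ¬ Λ.Adj s t

/-- the homomorphism to the semidirect product -/
def Th (_ : Ind Λ S) : GrP Λ A →* Wt Λ A S ⋊[pact Λ A S] Pt Λ A S :=
  lift (fun v => if h : v ∈ S then
      SemidirectProduct.inl.comp (o1 Λ A S ⟨v, h⟩ (i0 Λ A S ⟨v, h⟩))
    else SemidirectProduct.inr.comp (vc Λ A S ⟨v, h⟩))
    (fun v w hvw a b => by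
      have key : ∀ (s w : V) (hs : s ∈ S) (hw : w ∉ S), Λ.Adj s w → ∀ (a : A s) (b : A w),
          (SemidirectProduct.inr (vc Λ A S ⟨w, hw⟩ b) :
            Wt Λ A S ⋊[pact Λ A S] Pt Λ A S) *
            SemidirectProduct.inl (o1 Λ A S ⟨s, hs⟩ (i0 Λ A S ⟨s, hs⟩) a) =
          SemidirectProduct.inl (o1 Λ A S ⟨s, hs⟩ (i0 Λ A S ⟨s, hs⟩) a) *
            SemidirectProduct.inr (vc Λ A S ⟨w, hw⟩ b) := by
        intro s w hs hw hsw a b
        rw [← mul_inv_eq_iff_eq_mul, ← map_inv, ← SemidirectProduct.inl_aut, pact_of, Ls_fix]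
        exact Subgroup.subset_closure ⟨⟨w, hw⟩, hsw, b, rfl⟩
      by_cases h : v ∈ S
      · by_cases h' : w ∈ S
        · rename_i hind
          exact absurd hvw (hind v h w h')
        · rw [dif_pos h, dif_neg h']
          exact (key v w h h' hvw a b).symm
      · by_cases h' : w ∈ S
        · rw [dif_neg h, dif_pos h']
          exact key w v h' h hvw.symm b a
        · rw [dif_neg h, dif_neg h', MonoidHom.comp_apply, MonoidHom.comp_apply, ← map_mul,
            ← map_mul]
          congr 1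
          exact vx_comm (Λ := Λc Λ S) (A := Ac A S) (v := ⟨v, h⟩) (w := ⟨w, h'⟩) hvw a b)

theorem Th_sc (hS : Ind Λ S) (p : Pt Λ A S) :
    Th hS (sc Λ A S p) = SemidirectProduct.inr p := by
  have h : (Th hS).comp (sc Λ A S) = SemidirectProduct.inr := by
    apply hom_ext
    intro v a
    rw [MonoidHom.comp_apply]
    erw [sc_vc]
    unfold Th
    rw [lift_vx, dif_neg v.2]
    rfl
  exact DFunLike.congr_fun h p

theorem Th_k (hS : Ind Λ S) (s : S) (b : A s.1) :
    Th hS (vx Λ A s.1 b) = SemidirectProduct.inl (o1 Λ A S s (i0 Λ A S s) b) := by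
  unfold Th
  rw [lift_vx, dif_pos s.2]
  rfl

variable (Λ A S) in
/-- the embedding of a factor -/
def ke (s : S) (x : Pt Λ A S ⧸ Ls Λ A S s.1) : A s.1 →* GrP Λ A :=
  (MulAut.conj (sc Λ A S (Quotient.out x))).toMonoidHom.comp (vx Λ A s.1)

theorem ke_apply (s : S) (x : Pt Λ A S ⧸ Ls Λ A S s.1) (b : A s.1) : ke Λ A S s x b =
    sc Λ A S (Quotient.out x) * vx Λ A s.1 b * (sc Λ A S (Quotient.out x))⁻¹ := rfl

theorem Th_ke (hS : Ind Λ S) (s : S) (x : Pt Λ A S ⧸ Ls Λ A S s.1) (b : A s.1) :
    Th hS (ke Λ A S s x b) = SemidirectProduct.inl (o1 Λ A S s x b) := by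
  rw [ke_apply, map_mul, map_mul, map_inv, Th_sc, Th_k, ← map_inv, ← SemidirectProduct.inl_aut,
    pact_of, smul_i0]
  congr 2
  rw [QuotientGroup.out_eq']

/-- the subgroup of the link commutes with the vertex group -/
theorem comm_Ls {s : V} {l : Pt Λ A S} (hl : l ∈ Ls Λ A S s) (b : A s) :
    sc Λ A S l * vx Λ A s b = vx Λ A s b * sc Λ A S l := by
  have h : Ls Λ A S s ≤ (Subgroup.centralizer
      ((vx Λ A s).range : Set (GrP Λ A))).comap (sc Λ A S) := by
    unfold Ls
    rw [Subgroup.closure_le]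
    rintro _ ⟨w, hsw, a, rfl⟩
    rw [SetLike.mem_coe, Subgroup.mem_comap, Subgroup.mem_centralizer_iff]
    rintro _ ⟨b, rfl⟩
    erw [sc_vc]
    exact vx_comm hsw b a
  have h3 := h hl
  rw [Subgroup.mem_comap, Subgroup.mem_centralizer_iff] at h3
  exact (h3 _ ⟨b, rfl⟩).symm

theorem sc_ke (p : Pt Λ A S) (s : S) (x : Pt Λ A S ⧸ Ls Λ A S s.1) (b : A s.1) :
    sc Λ A S p * ke Λ A S s x b * (sc Λ A S p)⁻¹ = ke Λ A S s (p • x) b := by
  have h1 : (Quotient.out (p • x))⁻¹ * (p * Quotient.out x) ∈ Ls Λ A S s.1 := by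
    rw [← QuotientGroup.eq, QuotientGroup.out_eq']
    conv_lhs => rw [← QuotientGroup.out_eq' x]
    rfl
  have h2 := comm_Ls h1 b
  set l := (Quotient.out (p • x))⁻¹ * (p * Quotient.out x)
  have h3 : p * Quotient.out x = Quotient.out (p • x) * l := by
    rw [mul_inv_cancel_left]
  rw [ke_apply, ke_apply]
  have h4 : sc Λ A S p * (sc Λ A S (Quotient.out x) *
      vx Λ A s.1 b * (sc Λ A S (Quotient.out x))⁻¹) * (sc Λ A S p)⁻¹ =
      sc Λ A S (p * Quotient.out x) * vx Λ A s.1 b *
        (sc Λ A S (p * Quotient.out x))⁻¹ := by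
    rw [map_mul]
    group
  rw [h4, h3, map_mul, mul_assoc _ (sc Λ A S l), h2]
  group

/-- the factor of the base point is the vertex group -/
theorem ke_i0 (s : S) (b : A s.1) : ke Λ A S s (i0 Λ A S s) b = vx Λ A s.1 b := by
  have h1 : Quotient.out (i0 Λ A S s) ∈ Ls Λ A S s.1 := by
    have h2 : ((Quotient.out (i0 Λ A S s) : Pt Λ A S) : Pt Λ A S ⧸ Ls Λ A S s.1) =
        ((1 : Pt Λ A S) : Pt Λ A S ⧸ Ls Λ A S s.1) :=
      QuotientGroup.out_eq' _
    rw [QuotientGroup.eq, mul_one] at h2
    exact (Ls Λ A S s.1).inv_mem_iff.mp h2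
  rw [ke_apply, comm_Ls h1, mul_inv_cancel_right]

theorem ke_mk (p : Pt Λ A S) (s : S) (b : A s.1) :
    ke Λ A S s (QuotientGroup.mk p) b = sc Λ A S p * vx Λ A s.1 b * (sc Λ A S p)⁻¹ := by
  rw [← ke_i0, sc_ke, smul_i0]

/-- the factors generate the kernel of the retraction -/
theorem sup_ke : ⨆ i : It Λ A S, (ke Λ A S i.1 i.2).range = (rt Λ A S).ker := by
  set K : Subgroup (GrP Λ A) := ⨆ i : It Λ A S, (ke Λ A S i.1 i.2).range with hK
  have hle : K ≤ (rt Λ A S).ker := by
    rw [hK, iSup_le_iff]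
    rintro i _ ⟨b, rfl⟩
    have h1 : vx Λ A i.1.1 b ∈ (rt Λ A S).ker := by
      rw [MonoidHom.mem_ker]
      exact rt_in Λ A S i.1.2 b
    rw [ke_apply]
    exact (inferInstance : ((rt Λ A S).ker).Normal).conj_mem _ h1 _
  have hmem : ∀ (s : S) (x : Pt Λ A S ⧸ Ls Λ A S s.1) (b : A s.1), ke Λ A S s x b ∈ K :=
    fun s x b => (le_iSup (fun i : It Λ A S => (ke Λ A S i.1 i.2).range) ⟨s, x⟩) ⟨b, rfl⟩
  have hp : ∀ (p : Pt Λ A S) (y : GrP Λ A), y ∈ K →
      sc Λ A S p * y * (sc Λ A S p)⁻¹ ∈ K := by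
    intro p y hy
    have h1 : K ≤ K.comap (MulAut.conj (sc Λ A S p)).toMonoidHom := by
      conv_lhs => rw [hK]
      rw [iSup_le_iff]
      rintro i _ ⟨b, rfl⟩
      rw [Subgroup.mem_comap]
      change sc Λ A S p * ke Λ A S i.1 i.2 b * (sc Λ A S p)⁻¹ ∈ K
      rw [sc_ke]
      exact hmem _ _ _
    exact h1 hy
  -- every element is the product of an element of `K` and one of `P`
  have hall : ∀ y : GrP Λ A, y * (sc Λ A S (rt Λ A S y))⁻¹ ∈ K := by
    let T : Subgroup (GrP Λ A) :=
      { carrier := {y | y * (sc Λ A S (rt Λ A S y))⁻¹ ∈ K}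
        one_mem' := by
          change (1 : GrP Λ A) * _ ∈ K
          rw [map_one, map_one, inv_one, mul_one]
          exact K.one_mem
        mul_mem' := by
          intro a b ha hb
          change a * b * _ ∈ K
          have h1 := hp (rt Λ A S a) _ hb
          have h2 := K.mul_mem ha h1
          rw [map_mul, map_mul]
          convert h2 using 1
          group
        inv_mem' := by
          intro a ha
          change a⁻¹ * _ ∈ K
          have h1 := hp (rt Λ A S a)⁻¹ _ (K.inv_mem ha)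
          rw [map_inv, map_inv]
          convert h1 using 1
          rw [map_inv]
          group }
    intro y
    have h1 : y ∈ T := by
      apply le_of_gen
      intro v a
      change vx Λ A v a * _ ∈ K
      by_cases h : v ∈ S
      · rw [rt_in Λ A S h, map_one, inv_one, mul_one]
        have h2 := hmem ⟨v, h⟩ (i0 Λ A S ⟨v, h⟩) a
        rw [ke_i0] at h2
        exact h2
      · have h3 : sc Λ A S (vc Λ A S ⟨v, h⟩ a) = vx Λ A v a := sc_vc Λ A S _ _
        rw [rt_out Λ A S h, h3, mul_inv_cancel]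
        exact K.one_mem
    exact h1
  apply le_antisymm hle
  intro y hy
  have h1 := hall y
  rw [(MonoidHom.mem_ker).mp hy, map_one, inv_one, mul_one] at h1
  exact h1

/-! ### the free product -/

open Pool.Agent.R684.FP (IsFreeProd)

theorem ke_injective (s : S) (x : Pt Λ A S ⧸ Ls Λ A S s.1) :
    Function.Injective (ke Λ A S s x) := by
  intro a b h
  rw [ke_apply, ke_apply, mul_left_inj, mul_right_inj] at h
  exact vx_injective s.1 h

/-- the kernel is the free product of the factors, in every group which contains it -/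
theorem isFreeProd (hS : Ind Λ S) {G : Type} [Group G] (j : GrP Λ A →* G)
    (hj : Function.Injective j) : IsFreeProd (((rt Λ A S).ker).map j)
      (fun i : It Λ A S => ((ke Λ A S i.1 i.2).range).map j) := by
  constructor
  · rw [← Subgroup.map_iSup, sup_ke]
  · -- the isomorphisms of the factors
    have e : ∀ i : It Λ A S, ∃ e : ((ke Λ A S i.1 i.2).range).map j →* A i.1.1,
        ∀ y, j (ke Λ A S i.1 i.2 (e y)) = (y : G) := by
      intro i
      have h0 : Function.Injective (j.comp (ke Λ A S i.1 i.2)) := by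
        rw [MonoidHom.coe_comp]
        exact hj.comp (ke_injective i.1 i.2)
      have h1 : ((ke Λ A S i.1 i.2).range).map j = (j.comp (ke Λ A S i.1 i.2)).range := by
        rw [MonoidHom.range_comp]
      refine ⟨(MonoidHom.ofInjective h0).symm.toMonoidHom.comp
        (MulEquiv.subgroupCongr h1).toMonoidHom, ?_⟩
      intro y
      have h2 := (MonoidHom.ofInjective h0).apply_symm_apply ((MulEquiv.subgroupCongr h1) y)
      exact congrArg Subtype.val h2
    choose e he using e
    -- the comparison with the free product in the semidirect product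
    let E : Monoid.CoprodI (fun i : It Λ A S => ((ke Λ A S i.1 i.2).range).map j) →* Wt Λ A S :=
      Monoid.CoprodI.lift fun i => (o1 Λ A S i.1 i.2).comp (e i)
    let F' : Monoid.CoprodI (fun i : It Λ A S => ((ke Λ A S i.1 i.2).range).map j) →* GrP Λ A :=
      Monoid.CoprodI.lift fun i => (ke Λ A S i.1 i.2).comp (e i)
    have h1 : Monoid.CoprodI.lift
        (fun i : It Λ A S => (((ke Λ A S i.1 i.2).range).map j).subtype) = j.comp F' := by
      apply Monoid.CoprodI.ext_hom
      intro i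
      ext y
      rw [MonoidHom.comp_apply, MonoidHom.comp_apply, MonoidHom.comp_apply,
        Monoid.CoprodI.lift_of, Monoid.CoprodI.lift_of, MonoidHom.comp_apply, he]
      rfl
    have h2 : (Th hS).comp F' = SemidirectProduct.inl.comp E := by
      apply Monoid.CoprodI.ext_hom
      intro i
      ext y
      · rw [MonoidHom.comp_apply, MonoidHom.comp_apply, MonoidHom.comp_apply,
          MonoidHom.comp_apply, Monoid.CoprodI.lift_of, Monoid.CoprodI.lift_of,
          MonoidHom.comp_apply, Th_ke hS]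
        rfl
      · rw [MonoidHom.comp_apply, MonoidHom.comp_apply, MonoidHom.comp_apply,
          MonoidHom.comp_apply, Monoid.CoprodI.lift_of, Monoid.CoprodI.lift_of,
          MonoidHom.comp_apply, Th_ke hS]
        rfl
    -- `E` is injective
    have d : ∀ i : It Λ A S, ∃ d : A i.1.1 →* ((ke Λ A S i.1 i.2).range).map j,
        ∀ b, (d b : G) = j (ke Λ A S i.1 i.2 b) := fun i =>
      ⟨(j.comp (ke Λ A S i.1 i.2)).codRestrict (((ke Λ A S i.1 i.2).range).map j)
          fun b => ⟨ke Λ A S i.1 i.2 b, ⟨b, rfl⟩, rfl⟩, fun b => rfl⟩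
    choose d hd using d
    let E' : Wt Λ A S →* Monoid.CoprodI (fun i : It Λ A S => ((ke Λ A S i.1 i.2).range).map j) :=
      Monoid.CoprodI.lift fun i => (Monoid.CoprodI.of
        (M := fun i : It Λ A S => ((ke Λ A S i.1 i.2).range).map j) (i := i)).comp (d i)
    have hE' : ∀ (i : It Λ A S) (b : A i.1.1), E' (o1 Λ A S i.1 i.2 b) =
        Monoid.CoprodI.of (M := fun i : It Λ A S => ((ke Λ A S i.1 i.2).range).map j)
          (i := i) (d i b) := by
      intro i b
      exact Monoid.CoprodI.lift_of (M := fun i : It Λ A S => A i.1.1)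
        (fi := fun i => (Monoid.CoprodI.of
          (M := fun i : It Λ A S => ((ke Λ A S i.1 i.2).range).map j) (i := i)).comp (d i))
        (i := i) b
    have h3 : E'.comp E = MonoidHom.id _ := by
      apply Monoid.CoprodI.ext_hom
      intro i
      ext y
      rw [MonoidHom.comp_apply, MonoidHom.comp_apply, Monoid.CoprodI.lift_of,
        MonoidHom.comp_apply, hE', MonoidHom.comp_apply, MonoidHom.id_apply]
      congr 1
      apply Subtype.ext
      rw [hd, he]
    have h4 : Function.Injective E := by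
      intro a b hab
      have := congrArg E' hab
      rwa [← MonoidHom.comp_apply, ← MonoidHom.comp_apply, h3] at this
    have h5 : Function.Injective F' := by
      have h6 : Function.Injective ((Th hS).comp F') := by
        rw [h2, MonoidHom.coe_comp]
        exact SemidirectProduct.inl_injective.comp h4
      rw [MonoidHom.coe_comp] at h6
      exact h6.of_comp
    rw [h1, MonoidHom.coe_comp]
    exact hj.comp h5

end ker

end Pool.Agent.W2helper32.GQ
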