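import Pool.Agent.W2helper32.GQ.Base

/-!
# Extensions whose kernel is a graph product of arbitrary groups
-/

set_option autoImplicit false
set_option linter.unusedSectionVars false

open scoped Classical

noncomputable section

namespace Pool.Agent.W2helper32.GQ

open Pool.Agent.Y110.FJ (GrP commRel ClosedE)
open Pool.Agent.R684.FP
open Pool.Agent.R941.FJ (C_equiv C_le C_cyc)

variable {C : ∀ (G : Type) [Group G], Prop}

section defs

variable {V : Type} {Λ : SimpleGraph V} {A : V → Type} [∀ v, Group (A v)] {G : Type} [Group G]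

/-- a vertex group as a subgroup of `G` -/
def Av (j : GrP Λ A →* G) (v : V) : Subgroup G := ((vx Λ A v).range).map j

theorem mem_Av {j : GrP Λ A →* G} {v : V} {z : G} : z ∈ Av j v ↔ ∃ a, j (vx Λ A v a) = z := by
  constructor
  · rintro ⟨_, ⟨a, rfl⟩, rfl⟩
    exact ⟨a, rfl⟩
  · rintro ⟨a, rfl⟩
    exact ⟨_, ⟨a, rfl⟩, rfl⟩

/-- `g` maps the vertex group of `v` to the conjugate by `n⁻¹` of the one of `w` -/
def Mv (j : GrP Λ A →* G) (g n : G) (v w : V) : Prop :=
  ∀ z, z ∈ Av j v ↔ n * (g * z * g⁻¹) * n⁻¹ ∈ Av j w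

/-- conjugation is an isomorphism of cyclic extensions -/
theorem conj_ext (hC : ClosedE C) (K K' : Subgroup G) (g t : G)
    (hK : ∀ z, z ∈ K ↔ t⁻¹ * z * t ∈ K') (h : C ↥(K' ⊔ Subgroup.zpowers (t⁻¹ * g * t))) :
    C ↥(K ⊔ Subgroup.zpowers g) := by
  let φ : G →* G := (MulAut.conj t⁻¹).toMonoidHom
  have hφ : Function.Injective φ := (MulAut.conj t⁻¹).injective
  have hφa : ∀ z, φ z = t⁻¹ * z * t := fun z => by
    change t⁻¹ * z * t⁻¹⁻¹ = _
    rw [inv_inv]
  have h1 : (K ⊔ Subgroup.zpowers g).map φ ≤ K' ⊔ Subgroup.zpowers (t⁻¹ * g * t) := by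
    rw [Subgroup.map_le_iff_le_comap]
    refine sup_le ?_ ?_
    · intro z hz
      rw [Subgroup.mem_comap, hφa]
      exact Subgroup.mem_sup_left ((hK z).1 hz)
    · rw [Subgroup.zpowers_le, Subgroup.mem_comap, hφa]
      exact Subgroup.mem_sup_right (Subgroup.mem_zpowers _)
  exact C_equiv hC.base ((K ⊔ Subgroup.zpowers g).equivMapOfInjective φ hφ)
    (C_le hC.base h1 h)

end defs

section step

variable {V : Type} {Λ : SimpleGraph V} {A : V → Type} [∀ v, Group (A v)] {S : Set V}
variable {G : Type} [Group G] (j : GrP Λ A →* G)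

/-- the factors are conjugates of the vertex groups -/
theorem mem_factor (s : S) (p : Pt Λ A S) (z : G) :
    z ∈ ((ke Λ A S s (QuotientGroup.mk p)).range).map j ↔
      (j (sc Λ A S p))⁻¹ * z * j (sc Λ A S p) ∈ Av j s.1 := by
  rw [mem_Av]
  constructor
  · rintro ⟨_, ⟨b, rfl⟩, rfl⟩
    refine ⟨b, ?_⟩
    rw [ke_mk, map_mul, map_mul, map_inv]
    group
  · rintro ⟨b, hb⟩
    refine ⟨_, ⟨b, rfl⟩, ?_⟩
    rw [ke_mk, map_mul, map_mul, map_inv, hb]
    group

variable (hperm : ∀ (g : G) (v : V), v ∈ S → ∃ w ∈ S, ∃ n ∈ j.range, Mv j g n v w)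

include hperm in
theorem perm_factors : Pm (fun i : It Λ A S => ((ke Λ A S i.1 i.2).range).map j) Set.univ
    (((rt Λ A S).ker).map j) := by
  rintro ⟨s, x⟩ - g
  obtain ⟨p, rfl⟩ := QuotientGroup.mk_surjective x
  obtain ⟨w, hw, _, ⟨m, rfl⟩, hm⟩ := hperm (g * j (sc Λ A S p)) s.1 s.2
  let q : Pt Λ A S := rt Λ A S m⁻¹
  refine ⟨⟨⟨w, hw⟩, QuotientGroup.mk q⟩, Set.mem_univ _, j (sc Λ A S q * m), ?_, fun z => ?_⟩
  · refine ⟨_, ?_, rfl⟩
    rw [SetLike.mem_coe, MonoidHom.mem_ker, map_mul, rt_sc, ← map_mul, inv_mul_cancel, map_one]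
  · rw [mem_factor, mem_factor]
    rw [hm]
    have h1 : j m * (g * j (sc Λ A S p) * ((j (sc Λ A S p))⁻¹ * z * j (sc Λ A S p)) *
        (g * j (sc Λ A S p))⁻¹) * (j m)⁻¹ =
        (j (sc Λ A S q))⁻¹ * (j (sc Λ A S q * m) * (g * z * g⁻¹) * (j (sc Λ A S q * m))⁻¹) *
          j (sc Λ A S q) := by
      rw [map_mul]
      group
    rw [h1]

include hperm in
/-- the kernel is normal -/
theorem ker_normal : (((rt Λ A S).ker).map j).Normal := by
  refine ⟨fun y hy g => ?_⟩
  have hP := perm_factors j hperm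
  have hsup : ⨆ i : It Λ A S, ((ke Λ A S i.1 i.2).range).map j = ((rt Λ A S).ker).map j := by
    rw [← Subgroup.map_iSup, sup_ke]
  have h1 : (((rt Λ A S).ker).map j) ≤
      (((rt Λ A S).ker).map j).comap (MulAut.conj g).toMonoidHom := by
    conv_lhs => rw [← hsup]
    rw [iSup_le_iff]
    intro i z hz
    rw [Subgroup.mem_comap]
    change g * z * g⁻¹ ∈ _
    obtain ⟨i', -, n, hn, h⟩ := hP i (Set.mem_univ i) g
    have h2 := (h z).1 hz
    have h3 : n * (g * z * g⁻¹) * n⁻¹ ∈ ((rt Λ A S).ker).map j := by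
      rw [← hsup]
      exact (le_iSup (fun i : It Λ A S => ((ke Λ A S i.1 i.2).range).map j) i') h2
    have h4 := Subgroup.mul_mem _ (Subgroup.mul_mem _ (Subgroup.inv_mem _ hn) h3) hn
    have h5 : n⁻¹ * (n * (g * z * g⁻¹) * n⁻¹) * n = g * z * g⁻¹ := by group
    rwa [h5] at h4
  exact h1 hy

include hperm in
/-- **one step**: extensions whose kernel is the kernel of the retraction which kills an independent
set -/
theorem step (hC : ClosedE C) (hF : FbC C) (hS : Ind Λ S) (hj : Function.Injective j)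
    (hB : ∀ v ∈ S, ∀ g : G, (∀ z, z ∈ Av j v ↔ g * z * g⁻¹ ∈ Av j v) →
      C ↥(Av j v ⊔ Subgroup.zpowers g))
    [hN : (((rt Λ A S).ker).map j).Normal] (hQ : C (G ⧸ ((rt Λ A S).ker).map j)) : C G := by
  refine main_all hC hF hQ (fun i : It Λ A S => ((ke Λ A S i.1 i.2).range).map j) Set.univ
    (isFreeProd hS j hj) (fun i hi => absurd (Set.mem_univ i) hi) (perm_factors j hperm) ?_
  rintro ⟨s, x⟩ - g hg
  obtain ⟨p, rfl⟩ := QuotientGroup.mk_surjective x
  refine conj_ext hC _ (Av j s.1) g (j (sc Λ A S p)) (fun z => mem_factor j s p z) ?_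
  refine hB s.1 s.2 _ fun z => ?_
  have h1 := hg (j (sc Λ A S p) * z * (j (sc Λ A S p))⁻¹)
  rw [mem_factor, mem_factor] at h1
  have h2 : (j (sc Λ A S p))⁻¹ * (j (sc Λ A S p) * z * (j (sc Λ A S p))⁻¹) * j (sc Λ A S p) = z := by
    group
  have h3 : (j (sc Λ A S p))⁻¹ * (g * (j (sc Λ A S p) * z * (j (sc Λ A S p))⁻¹) * g⁻¹) *
      j (sc Λ A S p) = (j (sc Λ A S p))⁻¹ * g * j (sc Λ A S p) * z *
        ((j (sc Λ A S p))⁻¹ * g * j (sc Λ A S p))⁻¹ := by
    group
  rw [h2, h3] at h1
  exact h1

end step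

/-- the theorem for colourings preserved by the group -/
theorem main0 (hC : ClosedE C) (hF : FbC C) : ∀ (k : ℕ) (V : Type) (Λ : SimpleGraph V)
    (A : V → Type) [∀ v, Group (A v)] (c : V → ℕ), (∀ v, c v < k) →
    (∀ v w, Λ.Adj v w → c v ≠ c w) → ∀ (G : Type) [Group G] (j : GrP Λ A →* G),
    Function.Injective j → ∀ [j.range.Normal],
    (∀ (g : G) (v : V), ∃ w, c w = c v ∧ ∃ n ∈ j.range, Mv j g n v w) →
    (∀ (v : V) (g : G), (∀ z, z ∈ Av j v ↔ g * z * g⁻¹ ∈ Av j v) →
      C ↥(Av j v ⊔ Subgroup.zpowers g)) → C (G ⧸ j.range) → C G := by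
  intro k
  induction k with
  | zero =>
    intro V Λ A _ c hc _ G _ j hj hN _ _ hQ
    have hV : IsEmpty V := ⟨fun v => absurd (hc v) (Nat.not_lt_zero _)⟩
    have h1 : ∀ y : GrP Λ A, y = 1 := by
      intro y
      have : y ∈ (⊥ : Subgroup (GrP Λ A)) := le_of_gen (fun v => hV.elim v) y
      exact Subgroup.mem_bot.mp this
    refine hC.base.of_injective _ _ (QuotientGroup.mk' j.range) ?_ hQ
    rw [injective_iff_map_eq_one]
    intro a ha
    obtain ⟨y, rfl⟩ := (QuotientGroup.eq_one_iff a).mp ha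
    rw [h1 y, map_one]
  | succ k ih =>
    intro V Λ A _ c hc hprop G _ j hj hN hperm hB hQ
    let S : Set V := {v | c v = k}
    have hS : Ind Λ S := fun s hs t ht h => hprop s t h ((show c s = k from hs).trans
      (show c t = k from ht).symm)
    have hperm' : ∀ (g : G) (v : V), v ∈ S → ∃ w ∈ S, ∃ n ∈ j.range, Mv j g n v w := by
      intro g v hv
      obtain ⟨w, hw, h⟩ := hperm g v
      exact ⟨w, hw.trans hv, h⟩
    -- the kernel
    let M : Subgroup G := ((rt Λ A S).ker).map j
    have hMN : M ≤ j.range := Subgroup.map_le_range j _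
    have hM : M.Normal := ker_normal j hperm'
    let j' : Pt Λ A S →* G ⧸ M := (QuotientGroup.mk' M).comp (j.comp (sc Λ A S))
    have hj'' : ∀ y : GrP Λ A, QuotientGroup.mk' M (j y) = j' (rt Λ A S y) := by
      intro y
      change QuotientGroup.mk' M (j y) = QuotientGroup.mk' M (j (sc Λ A S (rt Λ A S y)))
      rw [QuotientGroup.mk'_eq_mk']
      refine ⟨j (y⁻¹ * sc Λ A S (rt Λ A S y)), ⟨_, ?_, rfl⟩, ?_⟩
      · rw [SetLike.mem_coe, MonoidHom.mem_ker, map_mul, rt_sc, map_inv, inv_mul_cancel]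
      · rw [← map_mul, mul_inv_cancel_left]
    have hj' : Function.Injective j' := by
      rw [injective_iff_map_eq_one]
      intro y hy
      have h1 : j (sc Λ A S y) ∈ M := (QuotientGroup.eq_one_iff _).mp hy
      obtain ⟨z, hz, hz'⟩ := h1
      rw [← rt_sc Λ A S y, ← hj hz']
      exact hz
    have hr : j'.range = j.range.map (QuotientGroup.mk' M) := by
      ext z
      constructor
      · rintro ⟨y, rfl⟩
        exact ⟨j (sc Λ A S y), ⟨_, rfl⟩, rfl⟩
      · rintro ⟨_, ⟨y, rfl⟩, rfl⟩
        exact ⟨_, (hj'' y).symm⟩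
    have hN' : (j.range.map (QuotientGroup.mk' M)).Normal := hN.map _
      (QuotientGroup.mk'_surjective M)
    have hN'' : j'.range.Normal := by
      rw [hr]
      exact hN'
    have hQ' : C ((G ⧸ M) ⧸ j'.range) :=
      C_equiv hC.base ((QuotientGroup.quotientMulEquivOfEq hr).trans
        (QuotientGroup.quotientQuotientEquivQuotient M j.range hMN)) hQ
    -- the vertex groups in the quotient
    have hvv : ∀ (v : {v // v ∉ S}) (a : A v.1), j' (vx (Λc Λ S) (Ac A S) v a) =
        QuotientGroup.mk' M (j (vx Λ A v.1 a)) := by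
      intro v a
      change QuotientGroup.mk' M (j (sc Λ A S (vc Λ A S v a))) = _
      rw [sc_vc]
    have hmemA : ∀ (v : {v // v ∉ S}) (z : G), z ∈ Av j v.1 → QuotientGroup.mk' M z ∈ Av j' v := by
      intro v z hz
      obtain ⟨a, rfl⟩ := mem_Av.mp hz
      rw [mem_Av]
      exact ⟨a, hvv v a⟩
    have hmemA' : ∀ (v : {v // v ∉ S}) (z : G ⧸ M), z ∈ Av j' v → ∃ y ∈ Av j v.1,
        QuotientGroup.mk' M y = z := by
      intro v z hz
      obtain ⟨a, rfl⟩ := mem_Av.mp hz
      exact ⟨j (vx Λ A v.1 a), mem_Av.mpr ⟨a, rfl⟩, (hvv v a).symm⟩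
    have hMvq : ∀ (g n : G) (v w : {v // v ∉ S}), Mv j g n v.1 w.1 →
        Mv j' (QuotientGroup.mk' M g) (QuotientGroup.mk' M n) v w := by
      intro g n v w h z
      constructor
      · intro hz
        obtain ⟨y, hy, rfl⟩ := hmemA' v z hz
        have h1 := hmemA w _ ((h y).1 hy)
        simpa only [map_mul, map_inv] using h1
      · intro hz
        obtain ⟨y, hy, hyz⟩ := hmemA' w _ hz
        have h1 : z = QuotientGroup.mk' M (g⁻¹ * (n⁻¹ * y * n) * g) := by
          simp only [map_mul, map_inv, hyz]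
          group
        rw [h1]
        refine hmemA v _ ((h _).2 ?_)
        have h2 : n * (g * (g⁻¹ * (n⁻¹ * y * n) * g) * g⁻¹) * n⁻¹ = y := by group
        rw [h2]
        exact hy
    have h1 : C (G ⧸ M) := by
      refine ih {v // v ∉ S} (Λc Λ S) (Ac A S) (fun v => c v.1) ?_ ?_ (G ⧸ M) j' hj' ?_ ?_ hQ'
      · intro v
        have h2 := hc v.1
        have h3 : c v.1 ≠ k := v.2
        omega
      · intro v w h
        exact hprop v.1 w.1 h
      · intro g' v
        obtain ⟨g, rfl⟩ := QuotientGroup.mk'_surjective M g'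
        obtain ⟨w, hw, n, hn, h⟩ := hperm g v.1
        have hwS : w ∉ S := fun h' => v.2 (hw.symm.trans h')
        refine ⟨⟨w, hwS⟩, hw, QuotientGroup.mk' M n, ?_, hMvq g n v ⟨w, hwS⟩ h⟩
        rw [hr]
        exact ⟨n, hn, rfl⟩
      · intro v g' hg'
        obtain ⟨g, rfl⟩ := QuotientGroup.mk'_surjective M g'
        obtain ⟨w, hw, n, hn, h⟩ := hperm g v.1
        have hwS : w ∉ S := fun h' => v.2 (hw.symm.trans h')
        have hq := hMvq g n v ⟨w, hwS⟩ h
        obtain ⟨m, hm⟩ : ∃ m : Pt Λ A S, j' m = QuotientGroup.mk' M n := by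
          have h2 : QuotientGroup.mk' M n ∈ j'.range := by
            rw [hr]
            exact ⟨n, hn, rfl⟩
          exact h2
        -- conjugation by `n` maps the vertex group of `v` to the one of `w`
        have hconj : ∀ a : A v.1, ∃ b : A w, m * vc Λ A S v a * m⁻¹ = vc Λ A S ⟨w, hwS⟩ b := by
          intro a
          have h2 : j' (vc Λ A S v a) ∈ Av j' v := mem_Av.mpr ⟨a, rfl⟩
          have h3 : (QuotientGroup.mk' M g)⁻¹ * j' (vc Λ A S v a) * QuotientGroup.mk' M g ∈
              Av j' v := by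
            rw [hg']
            have h4 : QuotientGroup.mk' M g * ((QuotientGroup.mk' M g)⁻¹ * j' (vc Λ A S v a) *
                QuotientGroup.mk' M g) * (QuotientGroup.mk' M g)⁻¹ = j' (vc Λ A S v a) := by
              group
            rw [h4]
            exact h2
          have h5 := (hq _).1 h3
          have h6 : QuotientGroup.mk' M n * (QuotientGroup.mk' M g *
              ((QuotientGroup.mk' M g)⁻¹ * j' (vc Λ A S v a) * QuotientGroup.mk' M g) *
              (QuotientGroup.mk' M g)⁻¹) * (QuotientGroup.mk' M n)⁻¹ =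
              j' (m * vc Λ A S v a * m⁻¹) := by
            rw [map_mul, map_mul, map_inv, hm]
            group
          rw [h6] at h5
          obtain ⟨b, hb⟩ := mem_Av.mp h5
          exact ⟨b, (hj' hb).symm⟩
        by_cases htriv : ∀ a : A v.1, a = 1
        · -- a trivial vertex group
          have h2 : Av j' v = ⊥ := by
            rw [eq_bot_iff]
            intro z hz
            obtain ⟨a, rfl⟩ := mem_Av.mp hz
            rw [htriv a, map_one, map_one]
            exact Subgroup.one_mem _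
          rw [h2, bot_sup_eq]
          exact C_cyc hC.base _
        · push Not at htriv
          obtain ⟨a₀, ha₀⟩ := htriv
          have hwv : (⟨w, hwS⟩ : {v // v ∉ S}) = v := by
            by_contra hne
            obtain ⟨b, hb⟩ := hconj a₀
            have h2 := congrArg (rv v) hb
            rw [rv_ne (A := Ac A S) (Λ := Λc Λ S) hne, map_mul, map_mul, map_inv,
              mul_inv_eq_one] at h2
            have h3 : rv v (vc Λ A S v a₀) = a₀ := rv_self (Λ := Λc Λ S) (A := Ac A S) v a₀
            rw [h3] at h2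
            exact ha₀ (mul_eq_left.mp h2)
          have hwv' : w = v.1 := congrArg Subtype.val hwv
          subst hwv'
          -- the element of the vertex group which acts like `n`
          obtain ⟨b₀, hb₀⟩ : ∃ b₀ : A v.1, b₀ = rv v m := ⟨_, rfl⟩
          have hact : ∀ a : A v.1, m * vc Λ A S v a * m⁻¹ =
              vc Λ A S v b₀ * vc Λ A S v a * (vc Λ A S v b₀)⁻¹ := by
            intro a
            obtain ⟨b, hb⟩ := hconj a
            have h2 := congrArg (rv v) hb
            rw [map_mul, map_mul, map_inv] at h2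
            have h3 : ∀ a : A v.1, rv v (vc Λ A S v a) = a :=
              fun a => rv_self (Λ := Λc Λ S) (A := Ac A S) v a
            have h4 : rv v (vc Λ A S ⟨v.1, hwS⟩ b) = b := h3 b
            rw [h3, h4, ← hb₀] at h2
            rw [hb, ← h2, map_mul, map_mul, map_inv]
          obtain ⟨g₁, hg₁⟩ : ∃ g₁ : G, g₁ = (j (vx Λ A v.1 b₀))⁻¹ * (n * g) := ⟨_, rfl⟩
          have hbA : j (vx Λ A v.1 b₀) ∈ Av j v.1 := mem_Av.mpr ⟨b₀, rfl⟩
          have hg₁n : ∀ z, z ∈ Av j v.1 ↔ g₁ * z * g₁⁻¹ ∈ Av j v.1 := by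
            intro z
            rw [h z]
            have h2 : g₁ * z * g₁⁻¹ = (j (vx Λ A v.1 b₀))⁻¹ * (n * (g * z * g⁻¹) * n⁻¹) *
                j (vx Λ A v.1 b₀) := by
              rw [hg₁]
              group
            rw [h2]
            constructor
            · intro h3
              exact Subgroup.mul_mem _ (Subgroup.mul_mem _ (Subgroup.inv_mem _ hbA) h3) hbA
            · intro h3
              have h4 := Subgroup.mul_mem _ (Subgroup.mul_mem _ hbA h3) (Subgroup.inv_mem _ hbA)
              have h5 : j (vx Λ A v.1 b₀) * ((j (vx Λ A v.1 b₀))⁻¹ * (n * (g * z * g⁻¹) * n⁻¹) *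
                  j (vx Λ A v.1 b₀)) * (j (vx Λ A v.1 b₀))⁻¹ = n * (g * z * g⁻¹) * n⁻¹ := by
                group
              rwa [h5] at h4
          have hC1 := hB v.1 g₁ hg₁n
          -- the isomorphism of the vertex groups
          have hinj' : Function.Injective (j'.comp (vc Λ A S v)) := by
            rw [MonoidHom.coe_comp]
            exact hj'.comp (vx_injective (Λ := Λc Λ S) (A := Ac A S) v)
          have hrange : (j'.comp (vc Λ A S v)).range = Av j' v := by
            rw [MonoidHom.range_comp]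
            rfl
          obtain ⟨e, he⟩ : ∃ e : Av j' v →* A v.1, ∀ y, j' (vc Λ A S v (e y)) = (y : G ⧸ M) := by
            refine ⟨(MonoidHom.ofInjective hinj').symm.toMonoidHom.comp
              (MulEquiv.subgroupCongr hrange.symm).toMonoidHom, fun y => ?_⟩
            have h2 := (MonoidHom.ofInjective hinj').apply_symm_apply
              ((MulEquiv.subgroupCongr hrange.symm) y)
            exact congrArg Subtype.val h2
          have hei : Function.Injective e := by
            intro a b hab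
            refine Subtype.ext ?_
            rw [← he a, hab, he b]
          obtain ⟨ψ, hψ⟩ : ∃ ψ : A v.1 →* ↥(Av j v.1 ⊔ Subgroup.zpowers g₁),
              ∀ a, ((ψ a : ↥(Av j v.1 ⊔ Subgroup.zpowers g₁)) : G) = j (vx Λ A v.1 a) :=
            ⟨(j.comp (vx Λ A v.1)).codRestrict _ fun a =>
              Subgroup.mem_sup_left (mem_Av.mpr ⟨a, rfl⟩), fun a => rfl⟩
          have hψi : Function.Injective ψ := by
            intro a b hab
            have h2 := congrArg Subtype.val hab
            rw [hψ, hψ] at h2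
            exact vx_injective v.1 (hj h2)
          refine cyc_real hC (Av j' v) (QuotientGroup.mk' M g) hg' (ψ.comp e)
            (by rw [MonoidHom.coe_comp]; exact hψi.comp hei)
            ⟨g₁, Subgroup.mem_sup_right (Subgroup.mem_zpowers g₁)⟩ ?_ hC1
          intro x y hxy
          refine Subtype.ext ?_
          rw [MonoidHom.comp_apply, MonoidHom.comp_apply, Subgroup.coe_mul, Subgroup.coe_mul,
            Subgroup.coe_inv, hψ, hψ]
          change j (vx Λ A v.1 (e y)) = g₁ * j (vx Λ A v.1 (e x)) * g₁⁻¹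
          -- compare in the quotient
          have hz : g₁ * j (vx Λ A v.1 (e x)) * g₁⁻¹ ∈ Av j v.1 :=
            (hg₁n _).1 (mem_Av.mpr ⟨e x, rfl⟩)
          obtain ⟨a', ha'⟩ := mem_Av.mp hz
          rw [← ha']
          congr 2
          have h2 : j' (vc Λ A S v a') = j' (vc Λ A S v (e y)) := by
            rw [he]
            have h3 : j' (vc Λ A S v a') = QuotientGroup.mk' M (j (vx Λ A v.1 a')) := hvv v a'
            rw [h3, ha', hg₁, hxy]
            have h4 : QuotientGroup.mk' M (j (vx Λ A v.1 (e x))) = (x : G ⧸ M) := by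
              rw [← hvv]
              exact he x
            have h5 : QuotientGroup.mk' M (j (vx Λ A v.1 b₀)) = j' (vc Λ A S v b₀) :=
              (hvv v b₀).symm
            simp only [map_mul, map_inv, h4, h5, ← hm]
            -- the element `g x g⁻¹`
            have h6 : QuotientGroup.mk' M g * (x : G ⧸ M) * (QuotientGroup.mk' M g)⁻¹ ∈ Av j' v :=
              (hg' _).1 x.2
            obtain ⟨a'', ha''⟩ := mem_Av.mp h6
            have h7 := congrArg j' (hact a'')
            simp only [map_mul, map_inv] at h7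
            have h8 : j' (vc Λ A S v a'') = QuotientGroup.mk' M g * (x : G ⧸ M) *
                (QuotientGroup.mk' M g)⁻¹ := ha''
            rw [h8] at h7
            calc (j' (vc Λ A S v b₀))⁻¹ * (j' m * QuotientGroup.mk' M g) * (x : G ⧸ M) *
                  ((j' (vc Λ A S v b₀))⁻¹ * (j' m * QuotientGroup.mk' M g))⁻¹
                = (j' (vc Λ A S v b₀))⁻¹ * (j' m * (QuotientGroup.mk' M g * (x : G ⧸ M) *
                  (QuotientGroup.mk' M g)⁻¹) * (j' m)⁻¹) * j' (vc Λ A S v b₀) := by group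
              _ = QuotientGroup.mk' M g * (x : G ⧸ M) * (QuotientGroup.mk' M g)⁻¹ := by
                  rw [h7]
                  group
          exact (vx_injective (Λ := Λc Λ S) (A := Ac A S) v (hj' h2)).symm
    exact step j hperm' hC hF hS hj (fun v _ => hB v) h1

end Pool.Agent.W2helper32.GQ
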