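import Pool.Agent.W2helper32.GQ.Ext

/-!
# Extensions whose kernel is a graph product of arbitrary groups: subgroups of finite index
-/

set_option autoImplicit false
set_option linter.unusedSectionVars false

open scoped Classical

noncomputable section

namespace Pool.Agent.W2helper32.GQ

open Pool.Agent.Y110.FJ (GrP commRel ClosedE)
open Pool.Agent.R684.FP
open Pool.Agent.R941.FJ (C_equiv C_le C_cyc)

variable {C : ∀ (G : Type) [Group G], Prop}
variable {V : Type} {Λ : SimpleGraph V} {A : V → Type} [∀ v, Group (A v)] {G : Type} [Group G]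

theorem Mv.mul {j : GrP Λ A →* G} {g h : G} {n m : G} {u v w : V}
    (h1 : Mv j h m u v) (h2 : Mv j g n v w) : Mv j (g * h) (n * (g * m * g⁻¹)) u w := by
  intro z
  rw [h1 z, h2]
  have h3 : n * (g * (m * (h * z * h⁻¹) * m⁻¹) * g⁻¹) * n⁻¹ =
      n * (g * m * g⁻¹) * (g * h * z * (g * h)⁻¹) * (n * (g * m * g⁻¹))⁻¹ := by group
  rw [h3]

theorem Mv.inv {j : GrP Λ A →* G} {g n : G} {v w : V} (h : Mv j g n v w) :
    Mv j g⁻¹ (g⁻¹ * n⁻¹ * g) w v := by
  intro z
  rw [h]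
  have h3 : n * (g * (g⁻¹ * n⁻¹ * g * (g⁻¹ * z * g⁻¹⁻¹) * (g⁻¹ * n⁻¹ * g)⁻¹) * g⁻¹) * n⁻¹ = z := by
    group
  rw [h3]

/-- passage to a subgroup of finite index -/
theorem main1 (hC : ClosedE C) (hF : FbC C) (k : ℕ) (c : V → ℕ) (hc : ∀ v, c v < k)
    (hprop : ∀ v w, Λ.Adj v w → c v ≠ c w) (j : GrP Λ A →* G) (hj : Function.Injective j)
    [hN : j.range.Normal] (G₁ : Subgroup G) (hG₁ : G₁.FiniteIndex) (hle : j.range ≤ G₁)
    (hperm : ∀ g ∈ G₁, ∀ v : V, ∃ w, c w = c v ∧ ∃ n ∈ j.range, Mv j g n v w)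
    (hB : ∀ (v : V) (g : G), (∀ z, z ∈ Av j v ↔ g * z * g⁻¹ ∈ Av j v) →
      C ↥(Av j v ⊔ Subgroup.zpowers g)) (hQ : C (G ⧸ j.range)) : C G := by
  refine hC.base.finiteIndex G G₁ hG₁ ?_
  let j₁ : GrP Λ A →* G₁ := j.codRestrict G₁ fun y => hle ⟨y, rfl⟩
  have hj₁v : ∀ y, ((j₁ y : G₁) : G) = j y := fun y => rfl
  have hj₁ : Function.Injective j₁ := by
    intro a b h
    exact hj (congrArg Subtype.val h)
  have hr : ∀ z : G₁, z ∈ j₁.range ↔ (z : G) ∈ j.range := by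
    intro z
    constructor
    · rintro ⟨y, rfl⟩
      exact ⟨y, rfl⟩
    · rintro ⟨y, hy⟩
      exact ⟨y, Subtype.ext hy⟩
  have hN₁ : j₁.range.Normal := by
    refine ⟨fun z hz g => ?_⟩
    rw [hr] at hz ⊢
    exact hN.conj_mem _ hz g
  have hAv : ∀ (v : V) (z : G₁), z ∈ Av j₁ v ↔ (z : G) ∈ Av j v := by
    intro v z
    rw [mem_Av, mem_Av]
    constructor
    · rintro ⟨a, rfl⟩
      exact ⟨a, rfl⟩
    · rintro ⟨a, ha⟩
      exact ⟨a, Subtype.ext ha⟩
  have hAle : ∀ v, Av j v ≤ G₁ := by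
    intro v z hz
    obtain ⟨a, rfl⟩ := mem_Av.mp hz
    exact hle ⟨_, rfl⟩
  refine main0 hC hF k V Λ A c hc hprop G₁ j₁ hj₁ ?_ ?_ ?_
  · intro g v
    obtain ⟨w, hw, n, hn, h⟩ := hperm g g.2 v
    refine ⟨w, hw, ⟨n, hle hn⟩, (hr _).2 hn, fun z => ?_⟩
    rw [hAv, hAv]
    exact h z
  · intro v g hg
    have h1 : ∀ z, z ∈ Av j v ↔ (g : G) * z * (g : G)⁻¹ ∈ Av j v := by
      intro z
      constructor
      · intro hz
        have h2 := (hg ⟨z, hAle v hz⟩).1 ((hAv v _).2 hz)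
        exact (hAv v _).1 h2
      · intro hz
        have hz1 : z ∈ G₁ := by
          have h3 := G₁.mul_mem (G₁.mul_mem (G₁.inv_mem g.2) (hAle v hz)) g.2
          have h4 : (g : G)⁻¹ * ((g : G) * z * (g : G)⁻¹) * g = z := by group
          rwa [h4] at h3
        have h2 := (hg ⟨z, hz1⟩).2 ((hAv v _).2 hz)
        exact (hAv v _).1 h2
    have h2 := hB v g h1
    have h3 : (Av j₁ v ⊔ Subgroup.zpowers g).map G₁.subtype ≤ Av j v ⊔ Subgroup.zpowers (g : G) := by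
      rw [Subgroup.map_le_iff_le_comap]
      refine sup_le ?_ ?_
      · intro z hz
        exact Subgroup.mem_sup_left ((hAv v z).1 hz)
      · rw [Subgroup.zpowers_le]
        exact Subgroup.mem_sup_right (Subgroup.mem_zpowers _)
    exact C_equiv hC.base ((Av j₁ v ⊔ Subgroup.zpowers g).equivMapOfInjective G₁.subtype
      G₁.subtype_injective) (C_le hC.base h3 h2)
  · have hle' : j₁.range ≤ j.range.comap G₁.subtype := fun z hz => (hr z).1 hz
    refine hC.base.of_injective _ _ (QuotientGroup.map j₁.range j.range G₁.subtype hle') ?_ hQ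
    rw [injective_iff_map_eq_one]
    intro a ha
    obtain ⟨z, rfl⟩ := QuotientGroup.mk_surjective a
    rw [QuotientGroup.map_mk, QuotientGroup.eq_one_iff] at ha
    rw [QuotientGroup.eq_one_iff]
    exact (hr z).2 ha

/-- a colouring preserved by a subgroup of finite index -/
theorem main_col (hC : ClosedE C) (hF : FbC C) (k : ℕ) (c : V → ℕ) (hc : ∀ v, c v < k)
    (hprop : ∀ v w, Λ.Adj v w → c v ≠ c w) (j : GrP Λ A →* G) (hj : Function.Injective j)
    [hN : j.range.Normal] (G₁ : Subgroup G) (hG₁ : G₁.FiniteIndex)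
    (hperm : ∀ g ∈ G₁, ∀ v : V, ∃ w, c w = c v ∧ ∃ n ∈ j.range, Mv j g n v w)
    (hB : ∀ (v : V) (g : G), (∀ z, z ∈ Av j v ↔ g * z * g⁻¹ ∈ Av j v) →
      C ↥(Av j v ⊔ Subgroup.zpowers g)) (hQ : C (G ⧸ j.range)) : C G := by
  refine main1 hC hF k c hc hprop j hj (G₁ ⊔ j.range) ?_ le_sup_right ?_ hB hQ
  · exact Subgroup.finiteIndex_of_le le_sup_left
  · intro y hy v
    obtain ⟨g, hg, m, hm, rfl⟩ := Subgroup.mem_sup_of_normal_right.mp hy
    obtain ⟨w, hw, n, hn, h⟩ := hperm g hg v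
    refine ⟨w, hw, n * (g * m⁻¹ * g⁻¹), j.range.mul_mem hn (hN.conj_mem _ (j.range.inv_mem hm) g),
      fun z => ?_⟩
    rw [h z]
    have h3 : n * (g * m⁻¹ * g⁻¹) * (g * m * z * (g * m)⁻¹) * (n * (g * m⁻¹ * g⁻¹))⁻¹ =
        n * (g * z * g⁻¹) * n⁻¹ := by group
    rw [h3]

/-- finite graphs -/
theorem main_fin [Finite V] (hC : ClosedE C) (hF : FbC C) (j : GrP Λ A →* G)
    (hj : Function.Injective j) [hN : j.range.Normal]
    (hperm : ∀ (g : G) (v : V), ∃ w, ∃ n ∈ j.range, Mv j g n v w)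
    (hB : ∀ (v : V) (g : G), (∀ z, z ∈ Av j v ↔ g * z * g⁻¹ ∈ Av j v) →
      C ↥(Av j v ⊔ Subgroup.zpowers g)) (hQ : C (G ⧸ j.range)) : C G := by
  obtain ⟨m, ⟨e⟩⟩ := Finite.exists_equiv_fin V
  have hone : ∀ v, Mv j (1 : G) 1 v v := fun v z => by simp
  let G₁ : Subgroup G :=
    { carrier := {g | ∀ v, ∃ n ∈ j.range, Mv j g n v v}
      one_mem' := fun v => ⟨1, j.range.one_mem, hone v⟩
      mul_mem' := by
        intro a b ha hb v
        obtain ⟨n, hn, h1⟩ := ha v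
        obtain ⟨n', hn', h2⟩ := hb v
        exact ⟨_, j.range.mul_mem hn (hN.conj_mem _ hn' a), h2.mul h1⟩
      inv_mem' := by
        intro a ha v
        obtain ⟨n, hn, h1⟩ := ha v
        refine ⟨_, ?_, h1.inv⟩
        have h2 := hN.conj_mem _ (j.range.inv_mem hn) a⁻¹
        rwa [inv_inv] at h2 }
  have hfi : G₁.FiniteIndex := by
    choose f n hn h using hperm
    have hcos : ∀ g g' : G, f g = f g' → g'⁻¹ * g ∈ G₁ := by
      intro g g' hgg v
      have h1 := h g v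
      have h2 := (h g' v).inv
      rw [← hgg] at h2
      refine ⟨_, ?_, h1.mul h2⟩
      have h3 := hN.conj_mem _ (j.range.inv_mem (hn g' v)) g'⁻¹
      rw [inv_inv] at h3
      exact j.range.mul_mem h3 (hN.conj_mem _ (hn g v) g'⁻¹)
    have hinj : Function.Injective fun q : G ⧸ G₁ => f (Quotient.out q) := by
      intro q q' hqq
      have h1 := hcos _ _ hqq
      rw [← QuotientGroup.eq, QuotientGroup.out_eq', QuotientGroup.out_eq'] at h1
      exact h1.symm
    have hfin : Finite (G ⧸ G₁) := Finite.of_injective _ hinj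
    exact Subgroup.finiteIndex_of_finite_quotient
  refine main_col hC hF m (fun v => (e v : ℕ)) (fun v => (e v).2) ?_ j hj G₁ hfi ?_ hB hQ
  · intro v w h hvw
    exact h.ne (e.injective (Fin.ext hvw))
  · intro g hg v
    exact ⟨v, rfl, hg v⟩

end Pool.Agent.W2helper32.GQ
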